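import Pool.Agent.helper70.LE.SpecN

set_option autoImplicit false

namespace Pool.Agent.LE

open Pool.Agent.helper58.DC Pool.Agent.DI Pool.Agent.GR Pool.Agent.OB Pool.Agent.DR Pool.Agent.FI Pool.Agent.FI3 Pool.Agent.FI4

/-- the `p`-part and the `p`-regular part of an element of finite order -/
theorem KKR_dec {G : Type} [Group G] [Finite G] (p : ℕ) (hp : p.Prime) (x : G) :
    ∃ u v : G, PEl p u ∧ PReg p v ∧ Commute u v ∧ u * v = x := by
  have hn : orderOf x ≠ 0 := (orderOf_pos x).ne'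
  obtain ⟨a, m, hm, hnm⟩ := Nat.exists_eq_pow_mul_and_not_dvd hn p hp.ne_one
  have hcop : IsCoprime ((p : ℤ) ^ a) (m : ℤ) := by
    have h1 : Nat.Coprime (p ^ a) m := Nat.Coprime.pow_left a ((Nat.Prime.coprime_iff_not_dvd hp).2 hm)
    have h2 := Nat.isCoprime_iff_coprime.2 h1
    rwa [Nat.cast_pow] at h2
  obtain ⟨s, t, hst⟩ := hcop
  have hx : x ^ ((orderOf x : ℕ) : ℤ) = 1 := by
    rw [zpow_natCast]; exact pow_orderOf_eq_one x
  have hx2 : x ^ ((p : ℤ) ^ a * (m : ℤ)) = 1 := by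
    rw [hnm] at hx
    rw [Nat.cast_mul, Nat.cast_pow] at hx
    exact hx
  refine ⟨x ^ (t * (m : ℤ)), x ^ (s * (p : ℤ) ^ a), ⟨a, ?_⟩, ?_, ?_, ?_⟩
  · rw [← zpow_natCast, ← zpow_mul, Nat.cast_pow]
    have h : t * (m : ℤ) * (p : ℤ) ^ a = ((p : ℤ) ^ a * (m : ℤ)) * t := by ring
    rw [h, zpow_mul, hx2, one_zpow]
  · intro hd
    have h1 : (x ^ (s * (p : ℤ) ^ a)) ^ m = 1 := by
      rw [← zpow_natCast, ← zpow_mul]
      have h : s * (p : ℤ) ^ a * (m : ℤ) = ((p : ℤ) ^ a * (m : ℤ)) * s := by ring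
      rw [h, zpow_mul, hx2, one_zpow]
    exact hm (hd.trans (orderOf_dvd_of_pow_eq_one h1))
  · exact Commute.zpow_zpow (Commute.refl x) _ _
  · rw [← zpow_add]
    have h : t * (m : ℤ) + s * (p : ℤ) ^ a = 1 := by rw [← hst]; ring
    rw [h, zpow_one]

theorem KKR (hSEG : SEG_stmt) (hKKF : KKF_stmt) : KKR_stmt := by
  intro p M hS G _ _ L e a hHI hNY
  have hp : p.Prime := hS.1
  have hinv : ∀ x : G, a⁻¹ * x ∈ L → ∀ t, e (x * t * x⁻¹) = e t := by
    intro x hx t
    have h1 : x * t * x⁻¹ = a * ((a⁻¹ * x) * t * (a⁻¹ * x)⁻¹) * a⁻¹ := by group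
    rw [h1, hNY.inv, hHI.cls _ hx]
  -- the main case
  have main : ∀ x x' : G, a⁻¹ * x ∈ L → a⁻¹ * x' ∈ L → PReg p x → ¬ PReg p x' → KK L e x x' = 0 := by
    intro x x' hx hx' hr hnr
    obtain ⟨u', v', hu', hv', huv, huv'⟩ := KKR_dec p hp x'
    have hu1 : u' ≠ 1 := by
      intro h
      apply hnr
      rw [← huv', h, one_mul]
      exact hv'
    have hCz : Cz L (1 : G) = L := by
      ext g
      simp [Cz, Subgroup.mem_centralizer_iff]
    have h0 : InM M (0 : ℂ) := by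
      refine ⟨0, 1, M.zero_mem, ?_, ?_⟩
      · exact (Ideal.ne_top_iff_one M).1 hS.2.1.ne_top
      · simp
    have key := hSEG p M hS G L e e 1 x u' v' 1 ⟨0, by simp⟩ hu' hr hv' (Commute.one_left x) huv hHI.idm
      (by rw [hCz]; exact hHI.idm)
      (by intro t; rw [one_mul]; exact hinv x hx t)
      (by intro t; rw [one_mul]; exact hinv x hx t)
      (by intro t _; rw [sub_self]; exact h0)
      (Subgroup.one_mem _)
      (by
        intro z hz
        rw [inv_one, one_mul] at hz ⊢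
        rw [one_mul, huv']
        have h1 : x * z * x'⁻¹ = a * ((a⁻¹ * x) * z * (a⁻¹ * x')⁻¹) * a⁻¹ := by group
        rw [h1]
        exact (Subgroup.mem_normalizer_iff.1 hNY.nor _).1
          (L.mul_mem (L.mul_mem hx hz) (L.inv_mem hx')))
    rw [huv', one_mul] at key
    have he : {z : G | (1 : G)⁻¹ * z ∈ L ∧ 1 * z = z * u'} = ∅ := by
      ext z
      simp only [Set.mem_setOf_eq, Set.mem_empty_iff_false, iff_false, not_and]
      intro _ h
      apply hu1
      rw [one_mul] at h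
      exact (mul_eq_left.1 h.symm)
    rw [he, finsum_mem_empty] at key
    have hL : {z : G | (1 : G)⁻¹ * z ∈ L} = (L : Set G) := by
      ext z
      simp
    rw [hL] at key
    exact key
  intro x x' hx hx' hiff
  by_cases hr : PReg p x
  · exact main x x' hx hx' hr (hiff.1 hr)
  · have hr' : PReg p x' := by
      by_contra h
      exact hr (hiff.2 h)
    have h2 := (hKKF G L a hNY.nor).2.1 e hHI.cls hHI.her x' x
    rw [h2, main x' x hx' hx hr' hr, map_zero]

end Pool.Agent.LE
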