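import Pool.Agent.helper70.LE.SpecN

set_option autoImplicit false

namespace Pool.Agent.LE

open Pool.Agent.helper58.DC Pool.Agent.DI Pool.Agent.GR Pool.Agent.OB Pool.Agent.DR Pool.Agent.FI Pool.Agent.FI3 Pool.Agent.FI4

theorem TRM_mem {G : Type} [Group G] (L : Subgroup G) (u g : G) :
    g ∈ Cz L u ↔ g ∈ L ∧ u * g = g * u := by
  unfold Cz
  rw [Subgroup.mem_inf, Subgroup.mem_centralizer_iff]
  simp

/-- the coset `a' K` -/
theorem TRM_coset {G : Type} [Group G] (L : Subgroup G) (u a a' : G) (h1 : a⁻¹ * a' ∈ L)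
    (h2 : u * a' = a' * u) (v : G) : a'⁻¹ * v ∈ Cz L u ↔ a⁻¹ * v ∈ L ∧ u * v = v * u := by
  rw [TRM_mem]
  have h3 : u * a'⁻¹ = a'⁻¹ * u := by
    have h : Commute u a' := h2
    exact h.inv_right
  constructor
  · rintro ⟨h4, h5⟩
    refine ⟨?_, ?_⟩
    · have h6 : a⁻¹ * v = (a⁻¹ * a') * (a'⁻¹ * v) := by group
      rw [h6]
      exact L.mul_mem h1 h4
    · have h6 : Commute u a' := h2
      have h7 : Commute u (a'⁻¹ * v) := h5
      have h8 := h6.mul_right h7
      rw [mul_inv_cancel_left] at h8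
      exact h8
  · rintro ⟨h4, h5⟩
    refine ⟨?_, ?_⟩
    · have h6 : a'⁻¹ * v = (a⁻¹ * a')⁻¹ * (a⁻¹ * v) := by group
      rw [h6]
      exact L.mul_mem (L.inv_mem h1) h4
    · have h6 : Commute u a'⁻¹ := h3
      have h7 : Commute u v := h5
      exact h6.mul_right h7

/-- the sum in terms of `om` -/
theorem TRM_sum {G : Type} [Group G] [Finite G] (p : ℕ) (L : Subgroup G) (e : G → ℂ) (u a a' y y' : G)
    (h1 : a⁻¹ * a' ∈ L) (h2 : u * a' = a' * u) (h3 : y⁻¹ * y' ∈ L) (h4 : u * y' = y' * u) :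
    ∑ᶠ v ∈ {v : G | a⁻¹ * v ∈ L ∧ v * u = u * v ∧ PReg p v}, ∑ᶠ z ∈ {z : G | y⁻¹ * z ∈ L ∧ u * z = z * u},
        e (v * z * v⁻¹ * z⁻¹) = (Nat.card (Cz L u) : ℂ) * om p (Cz L u) e a' y' := by
  have hv : {v : G | a⁻¹ * v ∈ L ∧ v * u = u * v ∧ PReg p v} =
      {x : G | a'⁻¹ * x ∈ Cz L u ∧ PReg p x} := by
    ext v
    simp only [Set.mem_setOf_eq, TRM_coset L u a a' h1 h2 v]
    constructor
    · rintro ⟨h5, h6, h7⟩
      exact ⟨⟨h5, h6.symm⟩, h7⟩
    · rintro ⟨⟨h5, h6⟩, h7⟩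
      exact ⟨h5, h6.symm, h7⟩
  have hz : {z : G | y⁻¹ * z ∈ L ∧ u * z = z * u} = {z : G | y'⁻¹ * z ∈ Cz L u} := by
    ext z
    simp only [Set.mem_setOf_eq, TRM_coset L u y y' h3 h4 z]
  rw [hv, hz]
  unfold om
  have hc : (Nat.card (Cz L u) : ℂ) ≠ 0 := by
    rw [Nat.cast_ne_zero]
    exact Nat.card_pos.ne'
  rw [mul_div_cancel₀ _ hc]

theorem TRM_nzcz {G : Type} [Group G] (Q : Subgroup G) (a : G) (ha : a ∈ nz Q) : a ∈ nz (cz Q) := by
  rw [Subgroup.mem_normalizer_iff]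
  intro h
  rw [Subgroup.mem_normalizer_iff] at ha
  constructor
  · intro hh
    rw [Subgroup.mem_centralizer_iff] at hh ⊢
    intro q hq
    have hq' : a⁻¹ * q * a ∈ Q := by
      rw [ha]
      have h1 : a * (a⁻¹ * q * a) * a⁻¹ = q := by group
      rw [h1]
      exact hq
    have h2 := hh _ hq'
    calc q * (a * h * a⁻¹) = a * ((a⁻¹ * q * a) * h) * a⁻¹ := by group
      _ = a * (h * (a⁻¹ * q * a)) * a⁻¹ := by rw [h2]
      _ = a * h * a⁻¹ * q := by group
  · intro hh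
    rw [Subgroup.mem_centralizer_iff] at hh ⊢
    intro q hq
    have hq' : a * q * a⁻¹ ∈ Q := (ha q).1 hq
    have h2 := hh _ hq'
    calc q * h = a⁻¹ * ((a * q * a⁻¹) * (a * h * a⁻¹)) * a := by group
      _ = a⁻¹ * ((a * h * a⁻¹) * (a * q * a⁻¹)) * a := by rw [h2]
      _ = h * q := by group

theorem TRM_nzCz {G : Type} [Group G] (L : Subgroup G) (u a : G) (ha : a ∈ nz L) (hu : u * a = a * u) :
    a ∈ nz (Cz L u) := by
  rw [Subgroup.mem_normalizer_iff] at ha ⊢
  intro h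
  have h1 : Commute u a := hu
  rw [TRM_mem, TRM_mem]
  constructor
  · rintro ⟨h2, h3⟩
    have h4 : Commute u h := h3
    exact ⟨(ha h).1 h2, ((h1.mul_right h4).mul_right h1.inv_right)⟩
  · rintro ⟨h2, h3⟩
    have h4 : Commute u (a * h * a⁻¹) := h3
    refine ⟨(ha h).2 h2, ?_⟩
    have h5 := (h1.inv_right.mul_right h4).mul_right h1
    have h6 : a⁻¹ * (a * h * a⁻¹) * a = h := by group
    rw [h6] at h5
    exact h5

theorem TRM (hSTA : STA_stmt) (hHIB : HIB_stmt) (hNS1 : NS1_stmt) (hNS2 : NS2_stmt) (hKKF : KKF_stmt)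
    (hNYT : NYT_stmt) : TRM_stmt := by
  intro p M hS G _ _ D x θ χ hLo Q hQD hRP a haT haQ y hyT hyQ hay u huD
  have haL : a ∈ nz (cz Q) := TRM_nzcz Q a haQ
  have hyL : y ∈ nz (cz Q) := TRM_nzcz Q y hyQ
  constructor
  · rintro ⟨h1, h2⟩
    exact TRM_sum p (cz Q) (eBl M (Cz (cz Q) u) θ) u a a y y (by rw [inv_mul_cancel]; exact Subgroup.one_mem _)
      h1.symm (by rw [inv_mul_cancel]; exact Subgroup.one_mem _) h2.symm
  · intro hnot
    by_cases hA : ∃ a', a⁻¹ * a' ∈ cz Q ∧ u * a' = a' * u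
    swap
    · have h : {v : G | a⁻¹ * v ∈ cz Q ∧ v * u = u * v ∧ PReg p v} = ∅ := by
        ext v
        simp only [Set.mem_setOf_eq, Set.mem_empty_iff_false, iff_false, not_and]
        intro h1 h2 _
        exact hA ⟨v, h1, h2.symm⟩
      rw [h, finsum_mem_empty]
    by_cases hY : ∃ y', y⁻¹ * y' ∈ cz Q ∧ u * y' = y' * u
    swap
    · have h : {z : G | y⁻¹ * z ∈ cz Q ∧ u * z = z * u} = ∅ := by
        ext v
        simp only [Set.mem_setOf_eq, Set.mem_empty_iff_false, iff_false, not_and]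
        intro h1 h2
        exact hY ⟨v, h1, h2⟩
      rw [h]
      simp only [finsum_mem_empty, finsum_zero]
    obtain ⟨a', ha'L, ha'u⟩ := hA
    obtain ⟨y', hy'L, hy'u⟩ := hY
    set K := Cz (cz Q) u with hK
    have hKeq : K = cz Q ⊓ cz (Subgroup.zpowers u) := by
      rw [hK]
      unfold Cz
      congr 1
      ext g
      rw [Subgroup.mem_centralizer_iff, Subgroup.mem_centralizer_iff]
      constructor
      · intro h q hq
        obtain ⟨n, rfl⟩ := hq
        have h1 : Commute u g := h u rfl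
        exact h1.zpow_left n
      · intro h q hq
        rw [Set.mem_singleton_iff] at hq
        rw [hq]
        exact h u (Subgroup.mem_zpowers u)
    have hzD : Subgroup.zpowers u ≤ D := by
      rw [Subgroup.zpowers_le]; exact huD
    have hnorm : ∀ b b' : G, b ∈ nz (cz Q) → b⁻¹ * b' ∈ cz Q → u * b' = b' * u → b' ∈ nz K := by
      intro b b' hb hb' hub
      apply TRM_nzCz _ _ _ _ hub
      have h1 : b' = b * (b⁻¹ * b') := by group
      rw [h1]
      exact Subgroup.mul_mem _ hb (Subgroup.le_normalizer hb')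
    have ha'K : a' ∈ nz K := hnorm a a' haL ha'L ha'u
    have hy'K : y' ∈ nz K := hnorm y y' hyL hy'L hy'u
    obtain ⟨hHI, hHIB2, hHIB3⟩ := hHIB p M hS G K θ
    by_cases hca : ∃ ψ ∈ Bl M K θ, cjF a' ψ ∈ Bl M K θ
    · -- case 2
      have hau : ∀ v ∈ Subgroup.zpowers u, a * v = v * a := by
        rw [hKeq] at hca
        refine hSTA p M hS G D x θ χ hLo Q hQD hRP a haT haQ (Subgroup.zpowers u) hzD a' ha'L ?_ hca
        intro v hv
        obtain ⟨n, rfl⟩ := hv
        have h1 : Commute u a' := ha'u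
        exact (h1.zpow_left n).symm
      have hau1 : a * u = u * a := hau u (Subgroup.mem_zpowers u)
      have hyu1 : ¬ (y * u = u * y) := fun h => hnot ⟨hau1, h⟩
      rw [TRM_sum p (cz Q) (eBl M K θ) u a a y y' (by rw [inv_mul_cancel]; exact Subgroup.one_mem _)
        hau1.symm hy'L hy'u]
      have hNYa : NY K (eBl M K θ) a :=
        ((hNYT p M hS G D x θ χ hLo Q hQD a haT haQ).2.1 u huD hau1).1
      by_cases hcy : ∃ ψ ∈ Bl M K θ, cjF y' ψ ∈ Bl M K θ
      · exfalso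
        apply hyu1
        have h : ∀ v ∈ Subgroup.zpowers u, y * v = v * y := by
          rw [hKeq] at hcy
          refine hSTA p M hS G D x θ χ hLo Q hQD hRP y hyT hyQ (Subgroup.zpowers u) hzD y' hy'L ?_ hcy
          intro v hv
          obtain ⟨n, rfl⟩ := hv
          have h1 : Commute u y' := hy'u
          exact (h1.zpow_left n).symm
        exact h u (Subgroup.mem_zpowers u)
      · have hcomm : a⁻¹ * (y' * a * y'⁻¹) ∈ K := by
          rw [hK, TRM_mem]
          refine ⟨?_, ?_⟩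
          · have hcd : a * y * a⁻¹ * y⁻¹ ∈ cz Q := Subgroup.centralizer_le (SetLike.coe_subset_coe.2 hQD) hay
            have e1 : a⁻¹ * (y' * a * y'⁻¹) = (a⁻¹ * (a * y * a⁻¹ * y⁻¹)⁻¹ * a) *
                (y * ((a⁻¹ * (y⁻¹ * y') * a) * (y⁻¹ * y')⁻¹) * y⁻¹) := by group
            rw [e1]
            have hai : a⁻¹ ∈ nz (cz Q) := Subgroup.inv_mem _ haL
            have c1 : a⁻¹ * (a * y * a⁻¹ * y⁻¹)⁻¹ * a ∈ cz Q := by
              have := (Subgroup.mem_normalizer_iff.1 hai (a * y * a⁻¹ * y⁻¹)⁻¹).1 (Subgroup.inv_mem _ hcd)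
              rwa [inv_inv] at this
            have c2 : a⁻¹ * (y⁻¹ * y') * a ∈ cz Q := by
              have := (Subgroup.mem_normalizer_iff.1 hai (y⁻¹ * y')).1 hy'L
              rwa [inv_inv] at this
            have c3 := (Subgroup.mem_normalizer_iff.1 hyL _).1
              (Subgroup.mul_mem _ c2 (Subgroup.inv_mem _ hy'L))
            exact Subgroup.mul_mem _ c1 c3
          · have c1 : Commute u a := hau1.symm
            have c2 : Commute u y' := hy'u
            exact c1.inv_right.mul_right ((c2.mul_right c1).mul_right c2.inv_right)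
        rw [hNS2 p M hS G K (eBl M K θ) a y' hHI hNYa hy'K hcomm (hHIB3 y' hy'K hcy).2, mul_zero]
    · -- case 1
      rw [TRM_sum p (cz Q) (eBl M K θ) u a a' y y' ha'L ha'u hy'L hy'u]
      have h5 := ((hKKF G K a' ha'K).2.2.2.2.1 p (eBl M K θ) y' hy'K).1
      rw [← hK, h5]
      have hz : ∑ᶠ x ∈ {x : G | a'⁻¹ * x ∈ K ∧ PReg p x}, KK K (eBl M K θ) x (y' * x * y'⁻¹) = 0 := by
        apply finsum_mem_eq_zero_of_forall_eq_zero
        rintro v ⟨hv, _⟩
        have hvK : v ∈ nz K := by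
          have h1 : v = a' * (a'⁻¹ * v) := by group
          rw [h1]
          exact Subgroup.mul_mem _ ha'K (Subgroup.le_normalizer hv)
        refine hNS1 G K (eBl M K θ) hHI.idm.sup hHI.idm.idem hHI.cls v hvK ?_ _
        have h2 := (hHIB3 a' ha'K hca).1
        have h3 : (fun t => eBl M K θ (v⁻¹ * t * v)) = fun t => eBl M K θ (a'⁻¹ * t * a') := by
          funext t
          have h4 : v⁻¹ * t * v = (a'⁻¹ * v)⁻¹ * (a'⁻¹ * t * a') * ((a'⁻¹ * v)⁻¹)⁻¹ := by group
          rw [h4, hHI.cls _ (Subgroup.inv_mem _ hv)]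
        rw [h3]
        exact h2
      rw [hz, zero_div, mul_zero]

end Pool.Agent.LE
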