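import Pool.Agent.helper64.LE.Base

/-!
# LE project, module DP: elementary properties of the two-point matrix
-/

set_option autoImplicit false

open Finset Classical

namespace Pool.Agent.helper66.LE

section D

variable {V : Type} [Fintype V] [DecidableEq V] {T Q : Matrix V V ℝ} {ρ : V → V → ℝ} {B δ W : ℝ}

theorem DP_nonneg (h : Hyp T Q ρ B δ W) (m : ℕ) (x y : V) : 0 ≤ (T ^ m) x y := by
  induction m generalizing x y with
  | zero =>
    rw [pow_zero, Matrix.one_apply]
    split_ifs <;> norm_num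
  | succ m ih =>
    rw [pow_succ, Matrix.mul_apply]
    exact Finset.sum_nonneg fun z _ => mul_nonneg (ih x z) (h.T0 z y)

theorem DP_step (h : Hyp T Q ρ B δ W) (m : ℕ) (x y : V) : (T ^ m) x y ≤ (T ^ (m + 1)) x y := by
  rw [pow_succ, Matrix.mul_apply]
  have := Finset.single_le_sum (f := fun z => (T ^ m) x z * T z y)
    (fun z _ => mul_nonneg (DP_nonneg h m x z) (h.T0 z y)) (Finset.mem_univ y)
  simpa [h.T1 y] using this

theorem DP_mono (h : Hyp T Q ρ B δ W) {m n : ℕ} (hmn : m ≤ n) (x y : V) :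
    (T ^ m) x y ≤ (T ^ n) x y := by
  induction n, hmn using Nat.le_induction with
  | base => exact le_rfl
  | succ n _ ih => exact ih.trans (DP_step h n x y)

theorem DP_symm (h : Hyp T Q ρ B δ W) (m : ℕ) (x y : V) : (T ^ m) x y = (T ^ m) y x := by
  have hT : T.transpose = T := by
    ext i j
    exact h.Ts j i
  have : (T ^ m).transpose = T ^ m := by rw [Matrix.transpose_pow, hT]
  calc (T ^ m) x y = (T ^ m).transpose y x := rfl
    _ = (T ^ m) y x := by rw [this]

/-- DP: elementary properties -/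
theorem Hyp.pow_le (h : Hyp T Q ρ B δ W) {m n : ℕ} (hmn : m ≤ n) (x y : V) :
    0 ≤ (T ^ m) x y ∧ (T ^ m) x y ≤ (T ^ n) x y ∧ (T ^ m) x y = (T ^ m) y x :=
  ⟨DP_nonneg h m x y, DP_mono h hmn x y, DP_symm h m x y⟩

/-- DP -/
theorem Hyp.TQ_le (h : Hyp T Q ρ B δ W) {m : ℕ} (hm : m ≤ 5) (x y : V) :
    0 ≤ (T ^ m * Q) x y ∧ (T ^ m * Q) x y ≤ δ ∧ (T ^ m * Q) x y ≤ (T ^ (m + 1)) x y := by
  refine ⟨?_, ?_, ?_⟩
  · rw [Matrix.mul_apply]
    exact Finset.sum_nonneg fun z _ => mul_nonneg (DP_nonneg h m x z) (h.Q0 z y)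
  · refine le_trans ?_ (h.hδ x y)
    rw [Matrix.mul_apply, Matrix.mul_apply]
    exact Finset.sum_le_sum fun z _ => mul_le_mul_of_nonneg_right (DP_mono h hm x z) (h.Q0 z y)
  · rw [pow_succ, Matrix.mul_apply, Matrix.mul_apply]
    exact Finset.sum_le_sum fun z _ => mul_le_mul_of_nonneg_left (h.QT z y) (DP_nonneg h m x z)

end D

end Pool.Agent.helper66.LE
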