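import Pool.Agent.helper20.LE.DS

/-!
# LE project, module DL: left functions
-/

set_option autoImplicit false

open Finset Classical

namespace Pool.Agent.helper66.LE

section D

variable {V : Type} [Fintype V] [DecidableEq V] {T Q : Matrix V V ℝ} {ρ : V → V → ℝ} {B δ W : ℝ}

/-- the block without the line at `v` -/
def DL_rest (T : Matrix V V ℝ) (a u t s : V) : ℝ :=
  T s t * T t a * T a u * T t u + T t s * T s a * T a u * T t u +
    T t a * (T a s * T s u) * T t u + T t a * T a u * (T t s * T s u)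

theorem DL_rest_nonneg (h : Hyp T Q ρ B δ W) (a u t s : V) : 0 ≤ DL_rest T a u t s := by
  unfold DL_rest
  have e : ∀ x y, 0 ≤ T x y := h.T0
  refine add_nonneg (add_nonneg (add_nonneg ?_ ?_) ?_) ?_ <;>
  · repeat' first | apply mul_nonneg | apply e

theorem DL_sum_v (h : Hyp T Q ρ B δ W) {M : V → V → ℝ} {c β : ℝ} (hM : LF T M c β)
    (a u t s : V) : ∑ v, M v a * DR_blk T v a u t s ≤ β * DL_rest T a u t s := by
  have e : ∀ x y, 0 ≤ T x y := h.T0
  have h1 : ∑ v, M v a * DR_blk T v a u t s =
      (∑ v, M v a * T v s) * (T s t * T t a * T a u * T t u) +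
      (∑ v, M v a * T v t) * (T t s * T s a * T a u * T t u +
        T t a * (T a s * T s u) * T t u + T t a * T a u * (T t s * T s u)) := by
    rw [Finset.sum_mul, Finset.sum_mul, ← Finset.sum_add_distrib]
    refine Finset.sum_congr rfl fun v _ => ?_
    unfold DR_blk
    ring
  rw [h1]
  have n1 : 0 ≤ T s t * T t a * T a u * T t u := by
    repeat' first | apply mul_nonneg | apply e
  have n2 : 0 ≤ T t s * T s a * T a u * T t u +
        T t a * (T a s * T s u) * T t u + T t a * T a u * (T t s * T s u) := by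
    refine add_nonneg (add_nonneg ?_ ?_) ?_ <;>
    · repeat' first | apply mul_nonneg | apply e
  have b1 := mul_le_mul_of_nonneg_right (hM.Mβ a s) n1
  have b2 := mul_le_mul_of_nonneg_right (hM.Mβ a t) n2
  unfold DL_rest
  linarith

theorem DL_rest_sum (h : Hyp T Q ρ B δ W) (u y : V) :
    ∑ s, ∑ t, ∑ a, DL_rest T a u t s * T s y ≤ 4 * B * (T ^ 3) u y := by
  have hB := DR_B0 h
  have e1 : ∀ s, ∑ t, ∑ a, T s t * T t a * T a u * T t u * T s y ≤ (T ^ 2) u s * T s y * B := by
    intro s
    calc ∑ t, ∑ a, T s t * T t a * T a u * T t u * T s y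
        = ∑ t, T u t * T t s * T s y * (T ^ 2) t u := by
          refine Finset.sum_congr rfl fun t _ => ?_
          rw [DR_sq, Finset.mul_sum]
          refine Finset.sum_congr rfl fun a _ => ?_
          rw [h.Ts t u, h.Ts s t]
          ring
      _ ≤ ∑ t, T u t * T t s * T s y * B := Finset.sum_le_sum fun t _ =>
          mul_le_mul_of_nonneg_left (DR_pow_le_B h (by norm_num) t u)
            (mul_nonneg (mul_nonneg (h.T0 u t) (h.T0 t s)) (h.T0 s y))
      _ = (T ^ 2) u s * T s y * B := by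
          rw [DR_sq, Finset.sum_mul, Finset.sum_mul]
  have e2 : ∀ s, ∑ t, ∑ a, T t s * T s a * T a u * T t u * T s y ≤ (T ^ 2) u s * T s y * B := by
    intro s
    have : ∑ t, ∑ a, T t s * T s a * T a u * T t u * T s y =
        (T ^ 2) u s * T s y * (T ^ 2) s u := by
      rw [DR_sq T u s, DR_sq T s u, Finset.sum_mul, Finset.sum_mul]
      refine Finset.sum_congr rfl fun t _ => ?_
      rw [Finset.mul_sum]
      refine Finset.sum_congr rfl fun a _ => ?_
      rw [h.Ts t u]
      ring
    rw [this]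
    exact mul_le_mul_of_nonneg_left (DR_pow_le_B h (by norm_num) s u)
      (mul_nonneg (DP_nonneg h 2 u s) (h.T0 s y))
  have e3 : ∀ s, ∑ t, ∑ a, T t a * (T a s * T s u) * T t u * T s y ≤ T u s * T s y * B := by
    intro s
    have : ∑ t, ∑ a, T t a * (T a s * T s u) * T t u * T s y =
        T u s * T s y * (T ^ 3) u s := by
      rw [DR_cube T u s, Finset.mul_sum]
      refine Finset.sum_congr rfl fun t _ => ?_
      rw [DR_sq T t s, Finset.mul_sum, Finset.mul_sum]
      refine Finset.sum_congr rfl fun a _ => ?_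
      rw [h.Ts t u, h.Ts s u]
      ring
    rw [this]
    exact mul_le_mul_of_nonneg_left (DR_pow_le_B h (by norm_num) u s)
      (mul_nonneg (h.T0 u s) (h.T0 s y))
  have e4 : ∀ s, ∑ t, ∑ a, T t a * T a u * (T t s * T s u) * T s y ≤ T u s * T s y * B := by
    intro s
    have : ∑ t, ∑ a, T t a * T a u * (T t s * T s u) * T s y =
        T u s * T s y * (T ^ 3) u s := by
      rw [DR_cube' T u s, Finset.mul_sum]
      refine Finset.sum_congr rfl fun t _ => ?_
      rw [DP_symm h 2 u t, DR_sq T t u, Finset.sum_mul, Finset.mul_sum]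
      refine Finset.sum_congr rfl fun a _ => ?_
      rw [h.Ts s u]
      ring
    rw [this]
    exact mul_le_mul_of_nonneg_left (DR_pow_le_B h (by norm_num) u s)
      (mul_nonneg (h.T0 u s) (h.T0 s y))
  have e : ∀ s, ∑ t, ∑ a, DL_rest T a u t s * T s y ≤
      (T ^ 2) u s * T s y * B + (T ^ 2) u s * T s y * B + T u s * T s y * B +
        T u s * T s y * B := by
    intro s
    refine le_trans (le_of_eq ?_) (add_le_add (add_le_add (add_le_add (e1 s) (e2 s)) (e3 s)) (e4 s))
    simp only [← Finset.sum_add_distrib]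
    refine Finset.sum_congr rfl fun t _ => Finset.sum_congr rfl fun a _ => ?_
    unfold DL_rest
    ring
  refine (Finset.sum_le_sum fun s _ => e s).trans ?_
  simp only [Finset.sum_add_distrib, ← Finset.sum_mul]
  rw [← DR_cube', ← DR_sq]
  have b2 := mul_le_mul_of_nonneg_right (DP_mono h (show 2 ≤ 3 by norm_num) u y) hB
  linarith

/-- the block summed against a left function -/
theorem DL_H_le (h : Hyp T Q ρ B δ W) {M : V → V → ℝ} {c β : ℝ} (hM : LF T M c β) (hβ : 0 ≤ β)
    (u y : V) : ∑ v, ∑ a, M v a * KK T v a u y ≤ 4 * B * β * (T ^ 3) u y := by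
  have e : ∑ v, ∑ a, M v a * KK T v a u y =
      ∑ s, ∑ t, ∑ a, (∑ v, M v a * DR_blk T v a u t s) * T s y := by
    have e0 : ∀ v a, M v a * KK T v a u y = ∑ s, ∑ t, M v a * DR_blk T v a u t s * T s y := by
      intro v a
      rw [DR_KK, Finset.sum_comm, Finset.mul_sum]
      refine Finset.sum_congr rfl fun s _ => ?_
      rw [Finset.mul_sum]
      refine Finset.sum_congr rfl fun t _ => ?_
      ring
    simp_rw [e0, Finset.sum_mul]
    calc ∑ v, ∑ a, ∑ s, ∑ t, M v a * DR_blk T v a u t s * T s y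
        = ∑ s, ∑ v, ∑ a, ∑ t, M v a * DR_blk T v a u t s * T s y := by
          rw [Finset.sum_comm' (s := Finset.univ) (t := fun _ => Finset.univ)
            (t' := Finset.univ) (s' := fun _ => Finset.univ) (by simp)]
          rw [Finset.sum_comm]
          calc _ = ∑ v, ∑ s, ∑ a, ∑ t, M v a * DR_blk T v a u t s * T s y :=
                Finset.sum_congr rfl fun v _ => Finset.sum_comm
            _ = _ := Finset.sum_comm
      _ = ∑ s, ∑ t, ∑ v, ∑ a, M v a * DR_blk T v a u t s * T s y := by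
          refine Finset.sum_congr rfl fun s _ => ?_
          calc _ = ∑ v, ∑ t, ∑ a, M v a * DR_blk T v a u t s * T s y :=
                Finset.sum_congr rfl fun v _ => Finset.sum_comm
            _ = _ := Finset.sum_comm
      _ = ∑ s, ∑ t, ∑ a, ∑ v, M v a * DR_blk T v a u t s * T s y :=
          Finset.sum_congr rfl fun s _ => Finset.sum_congr rfl fun t _ => Finset.sum_comm
  rw [e]
  calc ∑ s, ∑ t, ∑ a, (∑ v, M v a * DR_blk T v a u t s) * T s y
      ≤ ∑ s, ∑ t, ∑ a, β * (DL_rest T a u t s * T s y) := by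
        refine Finset.sum_le_sum fun s _ => Finset.sum_le_sum fun t _ =>
          Finset.sum_le_sum fun a _ => ?_
        rw [← mul_assoc]
        exact mul_le_mul_of_nonneg_right (DL_sum_v h hM a u t s) (h.T0 s y)
    _ = β * ∑ s, ∑ t, ∑ a, DL_rest T a u t s * T s y := by
        simp only [Finset.mul_sum]
    _ ≤ β * (4 * B * (T ^ 3) u y) := mul_le_mul_of_nonneg_left (DL_rest_sum h u y) hβ
    _ = 4 * B * β * (T ^ 3) u y := by ring

/-- DL: left functions -/
theorem Hyp.left (h : Hyp T Q ρ B δ W) {M : V → V → ℝ} {c β : ℝ} (hM : LF T M c β) (hβ : 0 ≤ β) :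
    LF T (fun w y => ∑ v, ∑ a, ∑ u, M v a * KK T v a u y * Q u w) (4 * B * β)
      (4 * B * δ * β) := by
  have hB := DR_B0 h
  have hBβ : 0 ≤ 4 * B * β := by positivity
  have key : ∀ w y, ∑ v, ∑ a, ∑ u, M v a * KK T v a u y * Q u w ≤
      4 * B * β * (T ^ 3 * Q) y w := by
    intro w y
    have e : ∑ v, ∑ a, ∑ u, M v a * KK T v a u y * Q u w =
        ∑ u, (∑ v, ∑ a, M v a * KK T v a u y) * Q u w := by
      simp only [Finset.sum_mul]
      calc _ = ∑ v, ∑ u, ∑ a, M v a * KK T v a u y * Q u w :=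
            Finset.sum_congr rfl fun v _ => Finset.sum_comm
        _ = _ := Finset.sum_comm
    rw [e, Matrix.mul_apply, Finset.mul_sum]
    refine Finset.sum_le_sum fun u _ => ?_
    rw [← mul_assoc, DP_symm h 3 y u]
    exact mul_le_mul_of_nonneg_right (DL_H_le h hM hβ u y) (h.Q0 u w)
  refine ⟨?_, ?_, ?_⟩
  · intro w y
    exact Finset.sum_nonneg fun v _ => Finset.sum_nonneg fun a _ => Finset.sum_nonneg fun u _ =>
      mul_nonneg (mul_nonneg (hM.M0 v a) (DS_KK_nonneg h v a u y)) (h.Q0 u w)
  · intro y z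
    calc ∑ w, (∑ v, ∑ a, ∑ u, M v a * KK T v a u y * Q u w) * T w z
        ≤ ∑ w, 4 * B * β * (T ^ 3 * Q) y w * T w z :=
          Finset.sum_le_sum fun w _ => mul_le_mul_of_nonneg_right (key w y) (h.T0 w z)
      _ = 4 * B * β * (T ^ 4 * Q) y z := by
          have hc : T ^ 3 * Q * T = T ^ 4 * Q := by
            rw [mul_assoc, ← h.comm, ← mul_assoc, ← pow_succ]
          rw [← hc, Matrix.mul_apply (M := T ^ 3 * Q), Finset.mul_sum]
          exact Finset.sum_congr rfl fun w _ => by ring
      _ ≤ 4 * B * β * δ := mul_le_mul_of_nonneg_left (h.TQ_le (by norm_num) y z).2.1 hBβ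
      _ = 4 * B * δ * β := by ring
  · intro w y
    refine (key w y).trans (mul_le_mul_of_nonneg_left ?_ hBβ)
    rw [DP_symm h 4 w y]
    exact (h.TQ_le (by norm_num) y w).2.2

end D

end Pool.Agent.helper66.LE
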