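import Pool.Agent.helper20.LE.DP

/-!
# LE project, module DR: right functions
-/

set_option autoImplicit false

open Finset Classical

namespace Pool.Agent.helper66.LE

section D

variable {V : Type} [Fintype V] [DecidableEq V] {T Q : Matrix V V ℝ} {ρ : V → V → ℝ} {B δ W : ℝ}

/-- the four-fold block -/
def DR_blk (T : Matrix V V ℝ) (v a u t s : V) : ℝ :=
  T v s * T s t * T t a * T a u * T t u + T v t * (T t s * T s a) * T a u * T t u +
    T v t * T t a * (T a s * T s u) * T t u + T v t * T t a * T a u * (T t s * T s u)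

omit [DecidableEq V] in
theorem DR_KK (T : Matrix V V ℝ) (v a u y : V) :
    KK T v a u y = ∑ t, ∑ s, DR_blk T v a u t s * T s y := rfl

theorem DR_blk_nonneg (h : Hyp T Q ρ B δ W) (v a u t s : V) : 0 ≤ DR_blk T v a u t s := by
  unfold DR_blk
  have := h.T0
  have h1 := fun x y => h.T0 x y
  have e : ∀ x y, 0 ≤ T x y := h.T0
  refine add_nonneg (add_nonneg (add_nonneg ?_ ?_) ?_) ?_ <;>
  · repeat' first | apply mul_nonneg | apply e

omit [DecidableEq V] in
theorem DR_comm {ι : Type} [Fintype ι] (f : V → V → V → ι → ℝ) :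
    ∑ u, ∑ w, ∑ y, ∑ t, f u w y t = ∑ t, ∑ u, ∑ w, ∑ y, f u w y t := by
  calc ∑ u, ∑ w, ∑ y, ∑ t, f u w y t = ∑ u, ∑ w, ∑ t, ∑ y, f u w y t :=
        Finset.sum_congr rfl fun u _ => Finset.sum_congr rfl fun w _ => Finset.sum_comm
    _ = ∑ u, ∑ t, ∑ w, ∑ y, f u w y t := Finset.sum_congr rfl fun u _ => Finset.sum_comm
    _ = ∑ t, ∑ u, ∑ w, ∑ y, f u w y t := Finset.sum_comm

/-- expansion of a block followed by a function -/
theorem DR_expand (T Q : Matrix V V ℝ) (R : V → V → ℝ) (v a : V) :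
    ∑ u, ∑ w, ∑ y, KK T v a u y * Q u w * R w y =
      ∑ t, ∑ s, ∑ u, DR_blk T v a u t s * ∑ w, ∑ y, T s y * Q u w * R w y := by
  have e : ∀ u w y, KK T v a u y * Q u w * R w y =
      ∑ t, ∑ s, DR_blk T v a u t s * (T s y * Q u w * R w y) := by
    intro u w y
    rw [DR_KK, Finset.sum_mul, Finset.sum_mul]
    refine Finset.sum_congr rfl fun t _ => ?_
    rw [Finset.sum_mul, Finset.sum_mul]
    refine Finset.sum_congr rfl fun s _ => ?_
    ring
  simp_rw [e]
  rw [DR_comm]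
  refine Finset.sum_congr rfl fun t _ => ?_
  rw [DR_comm]
  refine Finset.sum_congr rfl fun s _ => ?_
  refine Finset.sum_congr rfl fun u _ => ?_
  rw [Finset.mul_sum]
  refine Finset.sum_congr rfl fun w _ => ?_
  rw [Finset.mul_sum]

/-- the function `G` is bounded by `T ^ 5 * Q` -/
theorem DR_G_le (h : Hyp T Q ρ B δ W) (R : V → V → ℝ) (c : ℝ)
    (hR : ∀ w y, R w y ≤ c * (T ^ 4) w y) (s u : V) :
    ∑ w, ∑ y, T s y * Q u w * R w y ≤ c * (T ^ 5 * Q) s u := by
  have e : c * (T ^ 5 * Q) s u = ∑ w, ∑ y, T s y * Q u w * (c * (T ^ 4) w y) := by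
    rw [Matrix.mul_apply, Finset.mul_sum]
    refine Finset.sum_congr rfl fun w _ => ?_
    rw [show (5 : ℕ) = 4 + 1 from rfl, pow_succ', Matrix.mul_apply, Finset.sum_mul, Finset.mul_sum]
    refine Finset.sum_congr rfl fun y _ => ?_
    rw [DP_symm h 4 y w, h.Qs w u]
    ring
  rw [e]
  exact Finset.sum_le_sum fun w _ => Finset.sum_le_sum fun y _ =>
    mul_le_mul_of_nonneg_left (hR w y) (mul_nonneg (h.T0 s y) (h.Q0 u w))

theorem DR_G_nonneg (h : Hyp T Q ρ B δ W) (R : V → V → ℝ) (hR0 : ∀ w y, 0 ≤ R w y) (s u : V) :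
    0 ≤ ∑ w, ∑ y, T s y * Q u w * R w y :=
  Finset.sum_nonneg fun w _ => Finset.sum_nonneg fun y _ =>
    mul_nonneg (mul_nonneg (h.T0 s y) (h.Q0 u w)) (hR0 w y)

theorem DR_c_nonneg (h : Hyp T Q ρ B δ W) (R : V → V → ℝ) (c : ℝ) (hR0 : ∀ w y, 0 ≤ R w y)
    (hR : ∀ w y, R w y ≤ c * (T ^ 4) w y) (v : V) : 0 ≤ c := by
  have h1 : (1 : ℝ) ≤ (T ^ 4) v v := by
    have := DP_mono h (Nat.zero_le 4) v v
    rwa [pow_zero, Matrix.one_apply_eq] at this
  have h2 := (hR0 v v).trans (hR v v)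
  by_contra hc
  push Not at hc
  nlinarith

theorem DR_pow_le_B (h : Hyp T Q ρ B δ W) {m : ℕ} (hm : m ≤ 8) (x y : V) : (T ^ m) x y ≤ B :=
  (DP_mono h hm x y).trans (h.hB x y)

theorem DR_B0 (h : Hyp T Q ρ B δ W) : 0 ≤ B := zero_le_one.trans h.B1

theorem DR_sq (T : Matrix V V ℝ) (x y : V) : (T ^ 2) x y = ∑ z, T x z * T z y := by
  rw [pow_two, Matrix.mul_apply]

theorem DR_cube (T : Matrix V V ℝ) (x y : V) : (T ^ 3) x y = ∑ z, T x z * (T ^ 2) z y := by
  rw [show (3 : ℕ) = 2 + 1 from rfl, pow_succ', Matrix.mul_apply]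

theorem DR_cube' (T : Matrix V V ℝ) (x y : V) : (T ^ 3) x y = ∑ z, (T ^ 2) x z * T z y := by
  rw [show (3 : ℕ) = 2 + 1 from rfl, pow_succ, Matrix.mul_apply]

/-- the sum of the block over its inner vertices and `u` -/
theorem DR_blk_sum (h : Hyp T Q ρ B δ W) (v a : V) :
    ∑ t, ∑ s, ∑ u, DR_blk T v a u t s ≤ 4 * B * (T ^ 4) v a := by
  have hB := DR_B0 h
  have e1 : ∀ t, ∑ s, ∑ u, T v s * T s t * T t a * T a u * T t u =
      (T ^ 2) v t * T t a * (T ^ 2) a t := by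
    intro t
    rw [DR_sq T v t, DR_sq T a t, Finset.sum_mul, Finset.sum_mul]
    refine Finset.sum_congr rfl fun s _ => ?_
    rw [Finset.mul_sum]
    refine Finset.sum_congr rfl fun u _ => ?_
    rw [h.Ts t u]
    ring
  have e2 : ∀ t, ∑ s, ∑ u, T v t * (T t s * T s a) * T a u * T t u =
      T v t * (T ^ 2) t a * (T ^ 2) a t := by
    intro t
    rw [DR_sq T t a, DR_sq T a t, mul_assoc, Finset.sum_mul_sum, Finset.mul_sum]
    refine Finset.sum_congr rfl fun s _ => ?_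
    rw [Finset.mul_sum]
    refine Finset.sum_congr rfl fun u _ => ?_
    rw [h.Ts t u]
    ring
  have e3 : ∀ t, ∑ s, ∑ u, T v t * T t a * (T a s * T s u) * T t u =
      T v t * T t a * (T ^ 3) a t := by
    intro t
    rw [DR_cube' T a t, Finset.sum_comm, Finset.mul_sum]
    refine Finset.sum_congr rfl fun u _ => ?_
    rw [DR_sq T a u, Finset.sum_mul, Finset.mul_sum]
    refine Finset.sum_congr rfl fun s _ => ?_
    rw [h.Ts t u]
    ring
  have e4 : ∀ t, ∑ s, ∑ u, T v t * T t a * T a u * (T t s * T s u) =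
      T v t * T t a * (T ^ 3) a t := by
    intro t
    rw [DR_cube T a t, Finset.sum_comm, Finset.mul_sum]
    refine Finset.sum_congr rfl fun u _ => ?_
    rw [DP_symm h 2 u t, DR_sq T t u, Finset.mul_sum, Finset.mul_sum]
    refine Finset.sum_congr rfl fun s _ => ?_
    ring
  have e : ∀ t, ∑ s, ∑ u, DR_blk T v a u t s =
      (T ^ 2) v t * T t a * (T ^ 2) a t + T v t * (T ^ 2) t a * (T ^ 2) a t +
        T v t * T t a * (T ^ 3) a t + T v t * T t a * (T ^ 3) a t := by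
    intro t
    unfold DR_blk
    simp only [Finset.sum_add_distrib]
    rw [e1, e2, e3, e4]
  simp_rw [e]
  have h2 : ∀ x y, 0 ≤ (T ^ 2) x y := fun x y => DP_nonneg h 2 x y
  have h4 : 0 ≤ (T ^ 4) v a := DP_nonneg h 4 v a
  calc ∑ t, ((T ^ 2) v t * T t a * (T ^ 2) a t + T v t * (T ^ 2) t a * (T ^ 2) a t +
        T v t * T t a * (T ^ 3) a t + T v t * T t a * (T ^ 3) a t)
      ≤ ∑ t, ((T ^ 2) v t * T t a * B + T v t * (T ^ 2) t a * B +
        T v t * T t a * B + T v t * T t a * B) := by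
        refine Finset.sum_le_sum fun t _ => ?_
        have a1 := mul_le_mul_of_nonneg_left (DR_pow_le_B h (show 2 ≤ 8 by norm_num) a t)
          (mul_nonneg (h2 v t) (h.T0 t a))
        have a2 := mul_le_mul_of_nonneg_left (DR_pow_le_B h (show 2 ≤ 8 by norm_num) a t)
          (mul_nonneg (h.T0 v t) (h2 t a))
        have a3 := mul_le_mul_of_nonneg_left (DR_pow_le_B h (show 3 ≤ 8 by norm_num) a t)
          (mul_nonneg (h.T0 v t) (h.T0 t a))
        linarith
    _ = (T ^ 3) v a * B + (T ^ 3) v a * B + (T ^ 2) v a * B + (T ^ 2) v a * B := by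
        simp only [Finset.sum_add_distrib]
        rw [← Finset.sum_mul, ← Finset.sum_mul, ← Finset.sum_mul, ← DR_cube', ← DR_cube, ← DR_sq]
    _ ≤ 4 * B * (T ^ 4) v a := by
        have b1 := mul_le_mul_of_nonneg_right (DP_mono h (show 3 ≤ 4 by norm_num) v a) hB
        have b2 := mul_le_mul_of_nonneg_right (DP_mono h (show 2 ≤ 4 by norm_num) v a) hB
        linarith

/-- DR: right functions -/
theorem Hyp.right (h : Hyp T Q ρ B δ W) (R : V → V → ℝ) (c : ℝ) (hR0 : ∀ w y, 0 ≤ R w y)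
    (hR : ∀ w y, R w y ≤ c * (T ^ 4) w y) (v a : V) :
    ∑ u, ∑ w, ∑ y, KK T v a u y * Q u w * R w y ≤ c * (4 * B * δ) * (T ^ 4) v a := by
  rw [DR_expand]
  have hc := DR_c_nonneg h R c hR0 hR v
  calc ∑ t, ∑ s, ∑ u, DR_blk T v a u t s * ∑ w, ∑ y, T s y * Q u w * R w y
      ≤ ∑ t, ∑ s, ∑ u, DR_blk T v a u t s * (c * δ) := by
        refine Finset.sum_le_sum fun t _ => Finset.sum_le_sum fun s _ =>
          Finset.sum_le_sum fun u _ => ?_
        refine mul_le_mul_of_nonneg_left ?_ (DR_blk_nonneg h v a u t s)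
        exact (DR_G_le h R c hR s u).trans (mul_le_mul_of_nonneg_left (h.hδ s u) hc)
    _ = (∑ t, ∑ s, ∑ u, DR_blk T v a u t s) * (c * δ) := by
        simp only [Finset.sum_mul]
    _ ≤ (4 * B * (T ^ 4) v a) * (c * δ) :=
        mul_le_mul_of_nonneg_right (DR_blk_sum h v a) (mul_nonneg hc h.δ0)
    _ = c * (4 * B * δ) * (T ^ 4) v a := by ring

end D

end Pool.Agent.helper66.LE
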