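import Pool.Agent.helper20.LE.DR

/-!
# LE project, module DS: sums of the diagrams over the last vertex
-/

set_option autoImplicit false

open Finset Classical

namespace Pool.Agent.helper66.LE

section D

variable {V : Type} [Fintype V] [DecidableEq V] {T Q : Matrix V V ℝ} {ρ : V → V → ℝ} {B δ W : ℝ}

theorem DS_EE_nonneg (h : Hyp T Q ρ B δ W) (v a x : V) : 0 ≤ EE T v a x :=
  Finset.sum_nonneg fun t _ => mul_nonneg (mul_nonneg (mul_nonneg (h.T0 v t) (h.T0 t a))
    (h.T0 a x)) (h.T0 t x)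

theorem DS_KK_nonneg (h : Hyp T Q ρ B δ W) (v a u y : V) : 0 ≤ KK T v a u y := by
  rw [DR_KK]
  exact Finset.sum_nonneg fun t _ => Finset.sum_nonneg fun s _ =>
    mul_nonneg (DR_blk_nonneg h v a u t s) (h.T0 s y)

theorem DS_Dg_nonneg (h : Hyp T Q ρ B δ W) (n : ℕ) (v a x : V) : 0 ≤ Dg T Q n v a x := by
  induction n generalizing v a with
  | zero => exact DS_EE_nonneg h v a x
  | succ n ih =>
    exact Finset.sum_nonneg fun u _ => Finset.sum_nonneg fun w _ => Finset.sum_nonneg fun y _ =>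
      mul_nonneg (mul_nonneg (DS_KK_nonneg h v a u y) (h.Q0 u w)) (ih w y)

theorem DS_EE_sum (h : Hyp T Q ρ B δ W) (v a : V) :
    ∑ x, EE T v a x = ∑ t, T v t * T t a * (T ^ 2) a t := by
  unfold EE
  rw [Finset.sum_comm]
  refine Finset.sum_congr rfl fun t _ => ?_
  rw [DR_sq, Finset.mul_sum]
  refine Finset.sum_congr rfl fun x _ => ?_
  rw [h.Ts t x]
  ring

/-- DS (from DR) -/
theorem Hyp.sum_Dg (h : Hyp T Q ρ B δ W) (n : ℕ) (v a : V) :
    ∑ x, Dg T Q n v a x ≤ B * (4 * B * δ) ^ n * (T ^ 4) v a := by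
  induction n generalizing v a with
  | zero =>
    have e : ∑ x, Dg T Q 0 v a x = ∑ t, T v t * T t a * (T ^ 2) a t := DS_EE_sum h v a
    rw [e, pow_zero, mul_one]
    calc ∑ t, T v t * T t a * (T ^ 2) a t ≤ ∑ t, T v t * T t a * B :=
          Finset.sum_le_sum fun t _ => mul_le_mul_of_nonneg_left
            (DR_pow_le_B h (by norm_num) a t) (mul_nonneg (h.T0 v t) (h.T0 t a))
      _ = (T ^ 2) v a * B := by rw [← Finset.sum_mul, ← DR_sq]
      _ ≤ (T ^ 4) v a * B :=
          mul_le_mul_of_nonneg_right (DP_mono h (by norm_num) v a) (DR_B0 h)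
      _ = B * (T ^ 4) v a := mul_comm _ _
  | succ n ih =>
    have e : ∑ x, Dg T Q (n + 1) v a x =
        ∑ u, ∑ w, ∑ y, KK T v a u y * Q u w * ∑ x, Dg T Q n w y x := by
      simp only [Finset.mul_sum]
      rw [DR_comm]
      rfl
    rw [e]
    refine (h.right (fun w y => ∑ x, Dg T Q n w y x) (B * (4 * B * δ) ^ n)
      (fun w y => Finset.sum_nonneg fun x _ => DS_Dg_nonneg h n w y x)
      (fun w y => ih w y) v a).trans (le_of_eq ?_)
    ring

/-- DS0 -/
theorem Hyp.sum_Dg_zero (h : Hyp T Q ρ B δ W) (v : V) :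
    ∑ x, (if x = v then 0 else Dg T Q 0 v v x) ≤ δ * B := by
  have hcomm : T ^ 2 * Q = Q * T ^ 2 := (Commute.pow_left (show Commute T Q from h.comm) 2)
  have h1 : ∀ x, (if x = v then 0 else Dg T Q 0 v v x) ≤
      ∑ t, T v t * T t v * ((Q * T) v x * T t x) := by
    intro x
    split_ifs with hx
    · refine Finset.sum_nonneg fun t _ => mul_nonneg (mul_nonneg (h.T0 v t) (h.T0 t v))
        (mul_nonneg ?_ (h.T0 t x))
      rw [Matrix.mul_apply]
      exact Finset.sum_nonneg fun z _ => mul_nonneg (h.Q0 v z) (h.T0 z x)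
    · change EE T v v x ≤ _
      unfold EE
      refine Finset.sum_le_sum fun t _ => ?_
      rw [mul_assoc (T v t * T t v)]
      exact mul_le_mul_of_nonneg_left (mul_le_mul_of_nonneg_right
        (h.step v x (fun e => hx e.symm)) (h.T0 t x)) (mul_nonneg (h.T0 v t) (h.T0 t v))
  have h2 : ∀ t, ∑ x, (Q * T) v x * T t x = (T ^ 2 * Q) v t := by
    intro t
    rw [hcomm, pow_two, ← mul_assoc, Matrix.mul_apply (M := Q * T)]
    exact Finset.sum_congr rfl fun x _ => by rw [h.Ts t x]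
  calc ∑ x, (if x = v then 0 else Dg T Q 0 v v x)
      ≤ ∑ x, ∑ t, T v t * T t v * ((Q * T) v x * T t x) := Finset.sum_le_sum fun x _ => h1 x
    _ = ∑ t, T v t * T t v * (T ^ 2 * Q) v t := by
        rw [Finset.sum_comm]
        refine Finset.sum_congr rfl fun t _ => ?_
        rw [← Finset.mul_sum, h2]
    _ ≤ ∑ t, T v t * T t v * δ := Finset.sum_le_sum fun t _ =>
        mul_le_mul_of_nonneg_left (h.TQ_le (by norm_num) v t).2.1
          (mul_nonneg (h.T0 v t) (h.T0 t v))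
    _ = (T ^ 2) v v * δ := by rw [← Finset.sum_mul, ← DR_sq]
    _ ≤ B * δ := mul_le_mul_of_nonneg_right (DR_pow_le_B h (by norm_num) v v) h.δ0
    _ = δ * B := mul_comm _ _

end D

end Pool.Agent.helper66.LE
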